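import Mathlib
import Pool.Agent.H892R2.Proj.Haar

set_option autoImplicit false

open MeasureTheory Module
open scoped RealInnerProductSpace ContDiff

/-!
# The cosine transform: definitions and the determinant formula
-/

namespace Pool.Agent.R301.Cos

open Pool.Agent.H892R2.Proj

/-- The map `P_V ∘ P_W : V → V`, `P_V`, `P_W` the orthogonal projections onto `V`, `W`. -/
noncomputable def compress {n : ℕ} (V W : Submodule ℝ (E n)) : V →ₗ[ℝ] V :=
  V.orthogonalProjectionOnto.toLinearMap ∘ₗ W.starProjection.toLinearMap ∘ₗ V.subtype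

/-- The matrix of the orthogonal projection onto `V` in the standard basis of `ℝⁿ`. -/
noncomputable def pm {n : ℕ} (V : Submodule ℝ (E n)) : Matrix (Fin n) (Fin n) ℝ :=
  fun i j => V.starProjection (EuclideanSpace.single j 1) i

/-- `|cos(V,W)| = √ det (P_V ∘ P_W : V → V)`; here `P_V ∘ P_W : V → V` is extended to `ℝⁿ` by the
identity on the orthogonal complement of `V`, see `absCos_def`. -/
noncomputable def absCos {n : ℕ} (V W : Submodule ℝ (E n)) : ℝ :=
  √(pm V * pm W * pm V + (1 - pm V)).det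

theorem pm_eq {n : ℕ} (V : Submodule ℝ (E n)) : pm V =
    LinearMap.toMatrix (EuclideanSpace.basisFun (Fin n) ℝ).toBasis
      (EuclideanSpace.basisFun (Fin n) ℝ).toBasis V.starProjection.toLinearMap := by
  ext i j
  rw [LinearMap.toMatrix_apply]
  simp [pm]

theorem det_pm {n : ℕ} (V W : Submodule ℝ (E n)) :
    (pm V * pm W * pm V + (1 - pm V)).det = LinearMap.det (compress V W) := by
  set f : E n →ₗ[ℝ] E n := V.starProjection.toLinearMap * W.starProjection.toLinearMap *
    V.starProjection.toLinearMap + (1 - V.starProjection.toLinearMap) with hf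
  have h1 : pm V * pm W * pm V + (1 - pm V) =
      LinearMap.toMatrix (EuclideanSpace.basisFun (Fin n) ℝ).toBasis
        (EuclideanSpace.basisFun (Fin n) ℝ).toBasis f := by
    rw [hf, map_add, map_sub, LinearMap.toMatrix_mul, LinearMap.toMatrix_mul, LinearMap.toMatrix_one,
      ← pm_eq, ← pm_eq]
  rw [h1, LinearMap.det_toMatrix]
  have hV : V ≤ V.comap f := by
    intro x hx
    have h2 : f x = V.starProjection (W.starProjection (V.starProjection x)) +
      (x - V.starProjection x) := rfl
    rw [Submodule.mem_comap, h2, Submodule.starProjection_eq_self_iff.2 hx, sub_self, add_zero]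
    exact Submodule.starProjection_apply_mem _ _
  rw [LinearMap.det_eq_det_mul_det V f hV]
  have h3 : V.mapQ V f hV = LinearMap.id := by
    apply LinearMap.ext
    intro q
    obtain ⟨x, rfl⟩ := V.mkQ_surjective q
    change V.mkQ (f x) = V.mkQ x
    have h2 : f x = V.starProjection (W.starProjection (V.starProjection x)) +
      (x - V.starProjection x) := rfl
    rw [← sub_eq_zero, ← map_sub]
    change Submodule.Quotient.mk _ = _
    rw [Submodule.Quotient.mk_eq_zero, h2]
    have h4 : V.starProjection (W.starProjection (V.starProjection x)) +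
      (x - V.starProjection x) - x = V.starProjection (W.starProjection (V.starProjection x)) -
        V.starProjection x := by abel
    rw [h4]
    exact V.sub_mem (Submodule.starProjection_apply_mem _ _) (Submodule.starProjection_apply_mem _ _)
  have h5 : f.restrict hV = compress V W := by
    apply LinearMap.ext
    intro x
    apply Subtype.ext
    have h2 : f x = V.starProjection (W.starProjection (V.starProjection x)) +
      (x - V.starProjection x) := rfl
    change f x = V.starProjection (W.starProjection x)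
    rw [h2, Submodule.starProjection_eq_self_iff.2 x.2, sub_self, add_zero]
  rw [h3, h5, LinearMap.det_id, mul_one]

theorem absCos_def {n : ℕ} (V W : Submodule ℝ (E n)) :
    absCos V W = √(LinearMap.det (compress V W)) := by
  rw [absCos, det_pm]

theorem det_compress {n : ℕ} {V W : Submodule ℝ (E n)} (b : Basis (Fin 2) ℝ V)
    (u : OrthonormalBasis (Fin 2) ℝ W) :
    (⟪(b 0 : E n), b 0⟫ * ⟪(b 1 : E n), b 1⟫ - ⟪(b 0 : E n), b 1⟫ ^ 2) *
      LinearMap.det (compress V W) =
      (⟪(b 0 : E n), u 0⟫ * ⟪(b 1 : E n), u 1⟫ - ⟪(b 0 : E n), u 1⟫ * ⟪(b 1 : E n), u 0⟫) ^ 2 := by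
  set T := compress V W with hT
  set t : Matrix (Fin 2) (Fin 2) ℝ := LinearMap.toMatrix b b T with ht
  let G : Matrix (Fin 2) (Fin 2) ℝ := Matrix.of fun i j => ⟪(b i : E n), b j⟫
  let M : Matrix (Fin 2) (Fin 2) ℝ := Matrix.of fun i j => ⟪(b i : E n), u j⟫
  have hkey : G * t = M * M.transpose := by
    ext k j
    have h1 : ⟪(b k : E n), (T (b j) : V)⟫ = ∑ i, G k i * t i j := by
      have h2 : T (b j) = ∑ i, t i j • b i := by
        rw [ht]
        simp only [LinearMap.toMatrix_apply]
        exact (b.sum_repr (T (b j))).symm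
      rw [h2]
      simp only [Submodule.coe_sum, Submodule.coe_smul, inner_sum, inner_smul_right]
      refine Finset.sum_congr rfl fun i _ => ?_
      simp [G, mul_comm]
    have h3 : ⟪(b k : E n), (T (b j) : V)⟫ = ∑ l, M k l * M j l := by
      have h4 : ((T (b j) : V) : E n) = V.starProjection (W.starProjection (b j)) := rfl
      rw [h4, ← Submodule.inner_starProjection_left_eq_right,
        Submodule.starProjection_eq_self_iff.2 (b k).2, Submodule.starProjection_apply,
        u.orthogonalProjectionOnto_apply_eq_sum]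
      simp only [Submodule.coe_sum, Submodule.coe_smul, inner_sum, inner_smul_right]
      refine Finset.sum_congr rfl fun l _ => ?_
      simp only [M, Matrix.of_apply]
      rw [real_inner_comm (b j : E n) (u l : E n), mul_comm]
    rw [Matrix.mul_apply, ← h1, h3, Matrix.mul_apply]
    rfl
  have hdet : LinearMap.det T = t.det := (LinearMap.det_toMatrix b T).symm
  have h5 : G.det * t.det = M.det ^ 2 := by
    rw [← Matrix.det_mul, hkey, Matrix.det_mul, Matrix.det_transpose, sq]
  rw [hdet]
  rw [Matrix.det_fin_two G, Matrix.det_fin_two M] at h5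
  have h6 : G 0 1 * G 1 0 = ⟪(b 0 : E n), b 1⟫ ^ 2 := by
    simp only [G, Matrix.of_apply]
    rw [real_inner_comm (b 0 : E n) (b 1), sq]
  rw [h6] at h5
  exact h5

theorem det_compress_nonneg {n : ℕ} {V W : Submodule ℝ (E n)} (b : OrthonormalBasis (Fin 2) ℝ V)
    (u : OrthonormalBasis (Fin 2) ℝ W) : 0 ≤ LinearMap.det (compress V W) ∧
    LinearMap.det (compress V W) =
      (⟪(b 0 : E n), u 0⟫ * ⟪(b 1 : E n), u 1⟫ - ⟪(b 0 : E n), u 1⟫ * ⟪(b 1 : E n), u 0⟫) ^ 2 := by
  have h := det_compress b.toBasis u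
  have hb : ∀ i j, ⟪(b i : E n), b j⟫ = if i = j then 1 else 0 := orthonormal_iff_ite.1 b.orthonormal
  have h00 : ⟪(b 0 : E n), b 0⟫ = 1 := by rw [hb]; rfl
  have h11 : ⟪(b 1 : E n), b 1⟫ = 1 := by rw [hb]; rfl
  have h01 : ⟪(b 0 : E n), b 1⟫ = 0 := by rw [hb]; rfl
  simp only [OrthonormalBasis.coe_toBasis] at h
  rw [h00, h11, h01] at h
  have h2 : LinearMap.det (compress V W) =
      (⟪(b 0 : E n), u 0⟫ * ⟪(b 1 : E n), u 1⟫ - ⟪(b 0 : E n), u 1⟫ * ⟪(b 1 : E n), u 0⟫) ^ 2 := by
    rw [← h]; ring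
  exact ⟨h2 ▸ sq_nonneg _, h2⟩

theorem absCos_eq {n : ℕ} {V W : Submodule ℝ (E n)} (b : OrthonormalBasis (Fin 2) ℝ V)
    (u : OrthonormalBasis (Fin 2) ℝ W) : absCos V W =
      |⟪(b 0 : E n), u 0⟫ * ⟪(b 1 : E n), u 1⟫ - ⟪(b 0 : E n), u 1⟫ * ⟪(b 1 : E n), u 0⟫| := by
  rw [absCos_def, (det_compress_nonneg b u).2, Real.sqrt_sq_eq_abs]

/-- The determinant vanishes iff `V` meets the orthogonal complement of `W`. -/
theorem det_compress_eq_zero_iff {n : ℕ} (V W : Submodule ℝ (E n)) :
    LinearMap.det (compress V W) = 0 ↔ V ⊓ Wᗮ ≠ ⊥ := by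
  rw [LinearMap.det_eq_zero_iff_ker_ne_bot, not_iff_not]
  rw [Submodule.eq_bot_iff, Submodule.eq_bot_iff]
  constructor
  · intro h x hx
    have h1 : (⟨x, hx.1⟩ : V) ∈ LinearMap.ker (compress V W) := by
      rw [LinearMap.mem_ker]
      have h2 : W.starProjection x = 0 := by
        rw [Submodule.starProjection_apply_eq_zero_iff]
        exact hx.2
      have h3 : compress V W ⟨x, hx.1⟩ = V.orthogonalProjectionOnto (W.starProjection x) := rfl
      rw [h3, h2, map_zero]
    have := h _ h1
    exact congrArg Subtype.val this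
  · intro h x hx
    rw [LinearMap.mem_ker] at hx
    have h3 : compress V W x = V.orthogonalProjectionOnto (W.starProjection x) := rfl
    rw [h3] at hx
    have h4 : ⟪(x : E n), W.starProjection x⟫ = 0 := by
      have h5 : V.starProjection (W.starProjection (x : E n)) = 0 := by
        rw [Submodule.starProjection_apply, hx]; rfl
      have h6 : ⟪V.starProjection (x : E n), W.starProjection x⟫ = 0 := by
        rw [Submodule.inner_starProjection_left_eq_right, h5, inner_zero_right]
      rwa [Submodule.starProjection_eq_self_iff.2 x.2] at h6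
    have h7 : W.starProjection (x : E n) = 0 := by
      have h8 : ⟪W.starProjection (x : E n), W.starProjection (x : E n)⟫ = 0 := by
        rw [Submodule.inner_starProjection_left_eq_right,
          Submodule.starProjection_eq_self_iff.2 (Submodule.starProjection_apply_mem _ _), h4]
      exact inner_self_eq_zero.1 h8
    have h9 : (x : E n) ∈ V ⊓ Wᗮ := ⟨x.2, by rwa [Submodule.starProjection_apply_eq_zero_iff] at h7⟩
    exact Subtype.ext (h _ h9)

/-! ### Frames -/

/-- The columns of `g`. -/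
def col {n : ℕ} (g : O n) (k : Fin n) : E n := WithLp.toLp 2 (fun i => g.1 i k)

theorem col_orthonormal {n : ℕ} (g : O n) : Orthonormal ℝ (col g) := by
  rw [orthonormal_iff_ite]
  intro k l
  rw [← col_sq g k l, PiLp.inner_apply]
  refine Finset.sum_congr rfl fun i _ => ?_
  simp [col, mul_comm]

theorem plane_eq {n j : ℕ} (hj : j ≤ n) (g : O n) :
    plane n j g = Submodule.span ℝ (Set.range (fun k : Fin j => col g (Fin.castLE hj k))) := by
  unfold plane
  congr 1
  ext x
  constructor
  · rintro ⟨k, hk, hx⟩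
    refine ⟨⟨k, hk⟩, ?_⟩
    ext i
    exact (hx i).symm
  · rintro ⟨k, rfl⟩
    exact ⟨Fin.castLE hj k, k.2, fun i => rfl⟩

/-- The columns form an orthonormal basis of the plane. -/
theorem exists_basis {n j : ℕ} (hj : j ≤ n) (g : O n) :
    ∃ b : OrthonormalBasis (Fin j) ℝ (plane n j g), ∀ k, (b k : E n) = col g (Fin.castLE hj k) := by
  have hmem : ∀ k : Fin j, col g (Fin.castLE hj k) ∈ plane n j g := by
    intro k
    rw [plane_eq hj]
    exact Submodule.subset_span ⟨k, rfl⟩
  have hon : Orthonormal ℝ (fun k : Fin j => col g (Fin.castLE hj k)) :=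
    (col_orthonormal g).comp _ (Fin.castLE_injective hj)
  let v : Fin j → plane n j g := fun k => ⟨col g (Fin.castLE hj k), hmem k⟩
  have hv : Orthonormal ℝ v := by
    rw [orthonormal_iff_ite] at hon ⊢
    exact hon
  have hsp : ⊤ ≤ Submodule.span ℝ (Set.range v) := by
    rintro ⟨x, hx⟩ -
    have h1 : (plane n j g).map (LinearMap.id) = (Submodule.span ℝ (Set.range v)).map
        (plane n j g).subtype := by
      rw [Submodule.map_id, Submodule.map_span, ← Set.range_comp]
      exact plane_eq hj g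
    rw [Submodule.map_id] at h1
    have h2 : x ∈ (Submodule.span ℝ (Set.range v)).map (plane n j g).subtype := by
      rw [← h1]; exact hx
    obtain ⟨y, hy, hyx⟩ := h2
    have h3 : y = ⟨x, hx⟩ := Subtype.ext hyx
    rw [← h3]
    exact hy
  exact ⟨OrthonormalBasis.mk hv hsp, fun k => by simp [v]⟩

theorem exists_v {W : Submodule ℝ (E 4)} (w : OrthonormalBasis (Fin 2) ℝ W)
    (w' : OrthonormalBasis (Fin 2) ℝ Wᗮ) : ∃ v : Fin 4 → E 4, v 0 = w 0 ∧ v 1 = w 1 ∧ v 2 = w' 0 ∧
      v 3 = w' 1 ∧ ∀ j k, ⟪v j, v k⟫ = if j = k then 1 else 0 := by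
  let v' : Fin 2 ⊕ Fin 2 → E 4 := Sum.elim (fun i => (w i : E 4)) (fun i => (w' i : E 4))
  let e : Fin 4 ≃ Fin 2 ⊕ Fin 2 := (finSumFinEquiv (m := 2) (n := 2)).symm
  have hc : ∀ i j, ⟪(w i : E 4), w' j⟫ = 0 := fun i j =>
    Submodule.inner_right_of_mem_orthogonal (w i).2 (w' j).2
  have hc' : ∀ i j, ⟪(w' i : E 4), w j⟫ = 0 := fun i j => by rw [real_inner_comm]; exact hc j i
  have h1 : ∀ i j, ⟪(w i : E 4), w j⟫ = if i = j then 1 else 0 :=
    orthonormal_iff_ite.1 w.orthonormal
  have h2 : ∀ i j, ⟪(w' i : E 4), w' j⟫ = if i = j then 1 else 0 :=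
    orthonormal_iff_ite.1 w'.orthonormal
  have hv' : ∀ j k, ⟪v' j, v' k⟫ = if j = k then 1 else 0 := by
    rintro (j | j) (k | k)
    · simp only [v', Sum.elim_inl, h1, Sum.inl.injEq]
    · simp only [v', Sum.elim_inl, Sum.elim_inr, hc, reduceCtorEq, if_false]
    · simp only [v', Sum.elim_inl, Sum.elim_inr, hc', reduceCtorEq, if_false]
    · simp only [v', Sum.elim_inr, h2, Sum.inr.injEq]
  refine ⟨fun i => v' (e i), rfl, rfl, rfl, rfl, ?_⟩
  intro j k
  simp only [hv', e.injective.eq_iff]

/-- Every plane of `ℝ⁴` has an adapted orthonormal frame. -/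
theorem exists_frame (W : Submodule ℝ (E 4)) (hW : finrank ℝ W = 2) :
    ∃ (h : O 4) (w : OrthonormalBasis (Fin 2) ℝ W) (w' : OrthonormalBasis (Fin 2) ℝ Wᗮ),
      (w 0 : E 4) = col h 0 ∧ (w 1 : E 4) = col h 1 ∧
      (w' 0 : E 4) = col h 2 ∧ (w' 1 : E 4) = col h 3 := by
  have hW' : finrank ℝ Wᗮ = 2 := by
    have := Submodule.finrank_add_finrank_orthogonal W
    rw [hW, finrank_euclideanSpace, Fintype.card_fin] at this
    omega
  obtain ⟨w, -⟩ : ∃ w : OrthonormalBasis (Fin 2) ℝ W, True :=
    ⟨(stdOrthonormalBasis ℝ W).reindex (finCongr hW), trivial⟩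
  obtain ⟨w', -⟩ : ∃ w' : OrthonormalBasis (Fin 2) ℝ Wᗮ, True :=
    ⟨(stdOrthonormalBasis ℝ Wᗮ).reindex (finCongr hW'), trivial⟩
  obtain ⟨v, h0, h1, h2, h3, hv⟩ := exists_v w w'
  have hM : (Matrix.of fun i j => v j i : Matrix (Fin 4) (Fin 4) ℝ) ∈
      Matrix.orthogonalGroup (Fin 4) ℝ := by
    rw [Matrix.mem_orthogonalGroup_iff']
    ext j k
    rw [Matrix.mul_apply, Matrix.one_apply, ← hv j k, PiLp.inner_apply]
    refine Finset.sum_congr rfl fun i _ => ?_
    change v j i * v k i = inner ℝ (v j i) (v k i)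
    rw [real_inner_comm]
    rfl
  refine ⟨⟨_, hM⟩, w, w', h0.symm, h1.symm, h2.symm, h3.symm⟩

/-- The minors of a matrix. -/
def mn (r : O 4) (a b c d : Fin 4) : ℝ := r.1 a c * r.1 b d - r.1 a d * r.1 b c

theorem inner_col (h g : O 4) (i j : Fin 4) : ⟪col g i, col h j⟫ = (h⁻¹ * g : O 4).1 j i := by
  have h1 : (h⁻¹ * g : O 4).1 = h.1.transpose * g.1 := rfl
  rw [h1, PiLp.inner_apply, Matrix.mul_apply]
  refine Finset.sum_congr rfl fun l _ => ?_
  simp [col]

end Pool.Agent.R301.Cos
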