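import Mathlib
import Pool.Agent.R301.Cos.Basic

set_option autoImplicit false
set_option linter.unusedSimpArgs false

open MeasureTheory Module
open scoped RealInnerProductSpace

/-!
# Moments of the Plücker coordinates of a random plane of `ℝ⁴`
-/

namespace Pool.Agent.R301.Cos

open Pool.Agent.H892R2.Proj

/-- Plücker coordinates of the plane spanned by the first two columns. -/
def P (i j : Fin 4) (g : O 4) : ℝ := mn g i j 0 1

theorem P_cont (i j : Fin 4) : Continuous (P i j) := by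
  unfold P mn
  exact ((entry_cont _ _).mul (entry_cont _ _)).sub ((entry_cont _ _).mul (entry_cont _ _))

@[fun_prop]
theorem P_cont' (i j : Fin 4) : Continuous (fun g => P i j g) := P_cont i j

/-! ### Signed permutations -/

/-- The diagonal matrix with entry `-1` at `k`. -/
def D (k : Fin 4) : O 4 := ⟨Matrix.diagonal (fun i => if i = k then (-1 : ℝ) else 1), by
  rw [Matrix.mem_orthogonalGroup_iff]
  change Matrix.diagonal (fun i => if i = k then (-1 : ℝ) else 1) *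
    (Matrix.diagonal (fun i => if i = k then (-1 : ℝ) else 1)).transpose = 1
  rw [Matrix.diagonal_transpose, Matrix.diagonal_mul_diagonal, ← Matrix.diagonal_one]
  congr 1
  ext i
  split_ifs <;> norm_num⟩

theorem P_D (k i j : Fin 4) (g : O 4) : P i j (D k * g) =
    (if i = k then (-1 : ℝ) else 1) * (if j = k then (-1 : ℝ) else 1) * P i j g := by
  have h : ∀ a b, (D k * g : O 4).1 a b = (if a = k then (-1 : ℝ) else 1) * g.1 a b := by
    intro a b
    change (Matrix.diagonal (fun i => if i = k then (-1 : ℝ) else 1) * g.1) a b = _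
    rw [Matrix.diagonal_mul]
  unfold P mn
  rw [h, h, h, h]
  ring

/-- Permutation matrices. -/
def Sw (σ : Equiv.Perm (Fin 4)) : O 4 := ⟨Matrix.of fun i j => if σ i = j then (1 : ℝ) else 0, by
  rw [Matrix.mem_orthogonalGroup_iff]
  ext i j
  rw [Matrix.mul_apply]
  simp [Matrix.one_apply, Matrix.star_apply, σ.injective.eq_iff, eq_comm]⟩

theorem P_Sw (σ : Equiv.Perm (Fin 4)) (i j : Fin 4) (g : O 4) : P i j (Sw σ * g) =
    P (σ i) (σ j) g := by
  have h : ∀ a b, (Sw σ * g : O 4).1 a b = g.1 (σ a) b := by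
    intro a b
    change ((Matrix.of fun i j => if σ i = j then (1 : ℝ) else 0) * g.1) a b = _
    rw [Matrix.mul_apply]
    simp
  unfold P mn
  rw [h, h, h, h]

theorem P_swap (i j : Fin 4) (g : O 4) : P j i g = -P i j g := by
  unfold P mn; ring

noncomputable def m0 : ℝ := I 4 (fun g => |P 0 1 g|)
noncomputable def m1 : ℝ := I 4 (fun g => |P 0 1 g| * P 0 1 g ^ 2)
noncomputable def m2 : ℝ := I 4 (fun g => |P 0 1 g| * P 0 2 g ^ 2)
noncomputable def m3 : ℝ := I 4 (fun g => |P 0 1 g| * P 2 3 g ^ 2)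

theorem avg (Φ : O 4 → ℝ) (hΦ : Continuous Φ) (s : O 4) :
    I 4 Φ = I 4 (fun g => (Φ g + Φ (s * g)) / 2) := by
  have h1 : I 4 (fun g => Φ g + Φ (s * g)) = I 4 Φ + I 4 (fun g => Φ (s * g)) :=
    I_add hΦ (hΦ.comp (continuous_const.mul continuous_id))
  rw [left_inv] at h1
  have h2 : (fun g => (Φ g + Φ (s * g)) / 2) = fun g => (1 / 2 : ℝ) * (Φ g + Φ (s * g)) := by
    ext g; ring
  rw [h2, I_mul, h1]
  ring

theorem swap_eq (i j k l : Fin 4) (σ : Equiv.Perm (Fin 4)) :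
    I 4 (fun g => |P i j g| * P k l g ^ 2) =
      I 4 (fun g => |P (σ i) (σ j) g| * P (σ k) (σ l) g ^ 2) := by
  rw [← left_inv _ (Sw σ)]
  simp only [P_Sw]

theorem e03 : I 4 (fun g => |P 0 1 g| * P 0 3 g ^ 2) = m2 := by
  rw [swap_eq 0 1 0 3 (Equiv.swap 2 3)]
  rfl

theorem e12 : I 4 (fun g => |P 0 1 g| * P 1 2 g ^ 2) = m2 := by
  rw [swap_eq 0 1 1 2 (Equiv.swap 0 1)]
  have h1 : (Equiv.swap (0 : Fin 4) 1) 0 = 1 := rfl
  have h2 : (Equiv.swap (0 : Fin 4) 1) 1 = 0 := rfl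
  have h3 : (Equiv.swap (0 : Fin 4) 1) 2 = 2 := rfl
  rw [h1, h2, h3]
  unfold m2
  congr 1
  ext g
  rw [P_swap 0 1, abs_neg]

theorem e13 : I 4 (fun g => |P 0 1 g| * P 1 3 g ^ 2) = m2 := by
  rw [swap_eq 0 1 1 3 (Equiv.swap 2 3)]
  exact e12

/-- The integrand of `formula`. -/
noncomputable def Fn (a b c d e f : ℝ) (g : O 4) : ℝ :=
  |P 0 1 g| * (a * P 0 1 g + b * P 0 2 g + c * P 0 3 g + d * P 1 2 g + e * P 1 3 g + f * P 2 3 g) ^ 2

theorem Fn_D1 (a b c d e f : ℝ) (g : O 4) : Fn a b c d e f (D 1 * g) = Fn (-a) b c (-d) (-e) f g := by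
  have h01 : (0 : Fin 4) ≠ 1 := by decide
  have h02 : (0 : Fin 4) ≠ 2 := by decide
  have h03 : (0 : Fin 4) ≠ 3 := by decide
  have h12 : (1 : Fin 4) ≠ 2 := by decide
  have h13 : (1 : Fin 4) ≠ 3 := by decide
  have h23 : (2 : Fin 4) ≠ 3 := by decide
  unfold Fn
  simp only [P_D, h01, h02, h03, h12, h13, h23, h01.symm, h02.symm, h03.symm, h12.symm, h13.symm,
    h23.symm, if_true, if_false, one_mul, mul_one, neg_mul, mul_neg, abs_neg, neg_neg]

theorem Fn_D2 (a b c d e f : ℝ) (g : O 4) : Fn a b c d e f (D 2 * g) = Fn a (-b) c (-d) e (-f) g := by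
  have h01 : (0 : Fin 4) ≠ 1 := by decide
  have h02 : (0 : Fin 4) ≠ 2 := by decide
  have h03 : (0 : Fin 4) ≠ 3 := by decide
  have h12 : (1 : Fin 4) ≠ 2 := by decide
  have h13 : (1 : Fin 4) ≠ 3 := by decide
  have h23 : (2 : Fin 4) ≠ 3 := by decide
  unfold Fn
  simp only [P_D, h01, h02, h03, h12, h13, h23, h01.symm, h02.symm, h03.symm, h12.symm, h13.symm,
    h23.symm, if_true, if_false, one_mul, mul_one, neg_mul, mul_neg, abs_neg, neg_neg]

theorem Fn_D3 (a b c d e f : ℝ) (g : O 4) : Fn a b c d e f (D 3 * g) = Fn a b (-c) d (-e) (-f) g := by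
  have h01 : (0 : Fin 4) ≠ 1 := by decide
  have h02 : (0 : Fin 4) ≠ 2 := by decide
  have h03 : (0 : Fin 4) ≠ 3 := by decide
  have h12 : (1 : Fin 4) ≠ 2 := by decide
  have h13 : (1 : Fin 4) ≠ 3 := by decide
  have h23 : (2 : Fin 4) ≠ 3 := by decide
  unfold Fn
  simp only [P_D, h01, h02, h03, h12, h13, h23, h01.symm, h02.symm, h03.symm, h12.symm, h13.symm,
    h23.symm, if_true, if_false, one_mul, mul_one, neg_mul, mul_neg, abs_neg, neg_neg]

theorem Fn_cont (a b c d e f : ℝ) : Continuous (Fn a b c d e f) := by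
  unfold Fn; fun_prop

theorem formula (a b c d e f : ℝ) :
    I 4 (Fn a b c d e f) =
    a ^ 2 * m1 + (b ^ 2 + c ^ 2 + d ^ 2 + e ^ 2) * m2 + f ^ 2 * m3 := by
  have hm : ∀ (s : O 4) (Ψ : O 4 → ℝ), Continuous Ψ → Continuous (fun g => (Ψ g + Ψ (s * g)) / 2) := by
    intro s Ψ h
    exact (h.add (h.comp (continuous_const.mul continuous_id))).div_const _
  have hc := Fn_cont a b c d e f
  rw [avg _ hc (D 1), avg _ (hm _ _ hc) (D 2), avg _ (hm _ _ (hm _ _ hc)) (D 3)]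
  simp only [Fn_D1, Fn_D2, Fn_D3]
  have hpt : ∀ g, ((((Fn a b c d e f g + Fn (-a) b c (-d) (-e) f g) / 2 +
      (Fn a (-b) c (-d) e (-f) g + Fn (-a) (-b) c (- -d) (-e) (-f) g) / 2) / 2 +
      ((Fn a b (-c) d (-e) (-f) g + Fn (-a) b (-c) (-d) (- -e) (-f) g) / 2 +
        (Fn a (-b) (-c) (-d) (-e) (- -f) g + Fn (-a) (-b) (-c) (- -d) (- -e) (- -f) g) / 2) / 2) / 2 : ℝ) =
      a ^ 2 * (|P 0 1 g| * P 0 1 g ^ 2) + (b ^ 2 * (|P 0 1 g| * P 0 2 g ^ 2) +
        (c ^ 2 * (|P 0 1 g| * P 0 3 g ^ 2) + (d ^ 2 * (|P 0 1 g| * P 1 2 g ^ 2) +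
        (e ^ 2 * (|P 0 1 g| * P 1 3 g ^ 2) + f ^ 2 * (|P 0 1 g| * P 2 3 g ^ 2))))) := by
    intro g
    unfold Fn
    ring
  simp only [hpt]
  rw [I_add (by fun_prop) (by fun_prop), I_add (by fun_prop) (by fun_prop),
    I_add (by fun_prop) (by fun_prop), I_add (by fun_prop) (by fun_prop),
    I_add (by fun_prop) (by fun_prop)]
  rw [I_mul, I_mul, I_mul, I_mul, I_mul, I_mul, e03, e12, e13]
  change a ^ 2 * m1 + (b ^ 2 * m2 + (c ^ 2 * m2 + (d ^ 2 * m2 + (e ^ 2 * m2 + f ^ 2 * m3)))) = _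
  ring

end Pool.Agent.R301.Cos
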