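import Mathlib
import Pool.Agent.R301.Cos.Int

set_option autoImplicit false
set_option linter.unusedSimpArgs false

open MeasureTheory Module
open scoped RealInnerProductSpace

/-!
# Moments: the relation `m1 = 2 m2` and positivity
-/

namespace Pool.Agent.R301.Cos

open Pool.Agent.H892R2.Proj

noncomputable def RtM (θ : ℝ) : Matrix (Fin 4) (Fin 4) ℝ :=
  !![1, 0, 0, 0; 0, Real.cos θ, -Real.sin θ, 0; 0, Real.sin θ, Real.cos θ, 0; 0, 0, 0, 1]

theorem RtM_mul (θ : ℝ) : RtM θ * (RtM θ).transpose = 1 := by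
  have h := Real.sin_sq_add_cos_sq θ
  ext i j
  rw [Matrix.mul_apply]
  fin_cases i <;> fin_cases j <;> simp [RtM, Fin.sum_univ_four, Matrix.one_apply] <;> nlinarith

/-- The rotation by the angle `θ` in the coordinates `1, 2`. -/
noncomputable def Rt (θ : ℝ) : O 4 :=
  ⟨RtM θ, (Matrix.mem_orthogonalGroup_iff (Fin 4) ℝ).2 (RtM_mul θ)⟩

theorem Rt_row0 (θ : ℝ) (g : O 4) (b : Fin 4) : (Rt θ * g : O 4).1 0 b = g.1 0 b := by
  change ((Rt θ).1 * g.1) 0 b = _
  rw [Matrix.mul_apply, Fin.sum_univ_four]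
  simp [Rt, RtM]

theorem Rt_row1 (θ : ℝ) (g : O 4) (b : Fin 4) : (Rt θ * g : O 4).1 1 b =
    Real.cos θ * g.1 1 b - Real.sin θ * g.1 2 b := by
  change ((Rt θ).1 * g.1) 1 b = _
  rw [Matrix.mul_apply, Fin.sum_univ_four]
  simp [Rt, RtM]
  ring

theorem Rt_row2 (θ : ℝ) (g : O 4) (b : Fin 4) : (Rt θ * g : O 4).1 2 b =
    Real.sin θ * g.1 1 b + Real.cos θ * g.1 2 b := by
  change ((Rt θ).1 * g.1) 2 b = _
  rw [Matrix.mul_apply, Fin.sum_univ_four]
  simp [Rt, RtM]

theorem P01_Rt (θ : ℝ) (g : O 4) : P 0 1 (Rt θ * g) =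
    Real.cos θ * P 0 1 g - Real.sin θ * P 0 2 g := by
  unfold P mn
  rw [Rt_row0, Rt_row0, Rt_row1, Rt_row1]
  ring

theorem P02_Rt (θ : ℝ) (g : O 4) : P 0 2 (Rt θ * g) =
    Real.sin θ * P 0 1 g + Real.cos θ * P 0 2 g := by
  unfold P mn
  rw [Rt_row0, Rt_row0, Rt_row2, Rt_row2]
  ring

/-- The integrand. -/
noncomputable def H (θ a b : ℝ) : ℝ :=
  |Real.cos θ * a - Real.sin θ * b| *
    ((Real.cos θ * a - Real.sin θ * b) ^ 2 - 2 * (Real.sin θ * a + Real.cos θ * b) ^ 2)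

noncomputable def K (t : ℝ) : ℝ := |Real.cos t| * (Real.cos t ^ 2 - 2 * Real.sin t ^ 2)

theorem K_cont : Continuous K := by unfold K; fun_prop

theorem K_per : Function.Periodic K (2 * Real.pi) := by
  intro t
  unfold K
  rw [Real.cos_add_two_pi, Real.sin_add_two_pi]

theorem K_int : ∫ t in (-(Real.pi / 2))..(3 * Real.pi / 2), K t = 0 := by
  have hpi := Real.pi_pos
  rw [← intervalIntegral.integral_add_adjacent_intervals (b := Real.pi / 2)
    (K_cont.intervalIntegrable _ _) (K_cont.intervalIntegrable _ _)]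
  have hd : ∀ t : ℝ, HasDerivAt (fun t => Real.sin t - Real.sin t ^ 3)
      (Real.cos t * (Real.cos t ^ 2 - 2 * Real.sin t ^ 2)) t := by
    intro t
    have h1 := (Real.hasDerivAt_sin t).sub ((Real.hasDerivAt_sin t).pow 3)
    refine HasDerivAt.congr_deriv h1 ?_
    have h := Real.sin_sq_add_cos_sq t
    have : Real.cos t ^ 2 = 1 - Real.sin t ^ 2 := by linarith
    rw [this]
    push_cast
    ring
  have h1 : ∫ t in (-(Real.pi / 2))..(Real.pi / 2), K t = 0 := by
    have : ∫ t in (-(Real.pi / 2))..(Real.pi / 2), K t =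
        ∫ t in (-(Real.pi / 2))..(Real.pi / 2), Real.cos t * (Real.cos t ^ 2 - 2 * Real.sin t ^ 2) := by
      apply intervalIntegral.integral_congr
      intro t ht
      rw [Set.uIcc_of_le (by linarith)] at ht
      have := Real.cos_nonneg_of_mem_Icc ht
      simp only [K, abs_of_nonneg this]
    rw [this, intervalIntegral.integral_eq_sub_of_hasDerivAt (fun t _ => hd t)
      (Continuous.intervalIntegrable (by fun_prop) _ _)]
    simp only [Real.sin_neg, Real.sin_pi_div_two]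
    norm_num
  have h2 : ∫ t in (Real.pi / 2)..(3 * Real.pi / 2), K t = 0 := by
    have : ∫ t in (Real.pi / 2)..(3 * Real.pi / 2), K t =
        ∫ t in (Real.pi / 2)..(3 * Real.pi / 2), -(Real.cos t * (Real.cos t ^ 2 - 2 * Real.sin t ^ 2)) := by
      apply intervalIntegral.integral_congr
      intro t ht
      rw [Set.uIcc_of_le (by linarith)] at ht
      have := Real.cos_nonpos_of_pi_div_two_le_of_le ht.1 (by linarith [ht.2])
      simp only [K, abs_of_nonpos this]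
      ring
    rw [this, intervalIntegral.integral_neg,
      intervalIntegral.integral_eq_sub_of_hasDerivAt (fun t _ => hd t)
      (Continuous.intervalIntegrable (by fun_prop) _ _)]
    have h3 : Real.sin (3 * Real.pi / 2) = -1 := by
      have : 3 * Real.pi / 2 = Real.pi / 2 + Real.pi := by ring
      rw [this, Real.sin_add_pi, Real.sin_pi_div_two]
    rw [h3, Real.sin_pi_div_two]
    norm_num
  rw [h1, h2, add_zero]

theorem H_int (a b : ℝ) : ∫ θ in (0 : ℝ)..(2 * Real.pi), H θ a b = 0 := by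
  set z : ℂ := ⟨a, b⟩ with hz
  set r := ‖z‖ with hr
  set φ := Complex.arg z with hφ
  have ha : a = r * Real.cos φ := (Complex.norm_mul_cos_arg z).symm
  have hb : b = r * Real.sin φ := (Complex.norm_mul_sin_arg z).symm
  have hr0 : 0 ≤ r := norm_nonneg _
  have hH : ∀ θ, H θ a b = r ^ 3 * K (θ + φ) := by
    intro θ
    unfold H K
    have h1 : Real.cos θ * a - Real.sin θ * b = r * Real.cos (θ + φ) := by
      rw [Real.cos_add, ha, hb]; ring
    have h2 : Real.sin θ * a + Real.cos θ * b = r * Real.sin (θ + φ) := by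
      rw [Real.sin_add, ha, hb]; ring
    rw [h1, h2, abs_mul, abs_of_nonneg hr0]
    ring
  simp only [hH]
  rw [intervalIntegral.integral_const_mul, intervalIntegral.integral_comp_add_right (fun t => K t) φ,
    zero_add, add_comm (2 * Real.pi) φ, K_per.intervalIntegral_add_eq φ (-(Real.pi / 2)),
    show -(Real.pi / 2) + 2 * Real.pi = 3 * Real.pi / 2 by ring, K_int, mul_zero]

theorem HI (θ : ℝ) : I 4 (fun g => H θ (P 0 1 g) (P 0 2 g)) = m1 - 2 * m2 := by
  have h1 : (fun g => H θ (P 0 1 g) (P 0 2 g)) =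
      fun g => (fun g => |P 0 1 g| * (P 0 1 g ^ 2 - 2 * P 0 2 g ^ 2)) (Rt θ * g) := by
    ext g
    simp only [P01_Rt, P02_Rt, H]
  rw [h1, left_inv (fun g => |P 0 1 g| * (P 0 1 g ^ 2 - 2 * P 0 2 g ^ 2)) (Rt θ)]
  have h2 : (fun g => |P 0 1 g| * (P 0 1 g ^ 2 - 2 * P 0 2 g ^ 2)) =
      fun g => |P 0 1 g| * P 0 1 g ^ 2 + (-2) * (|P 0 1 g| * P 0 2 g ^ 2) := by
    ext g; ring
  rw [h2, I_add (by fun_prop) (by fun_prop), I_mul]
  change m1 + -2 * m2 = _
  ring

theorem m1_eq : m1 = 2 * m2 := by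
  have hcont : Continuous (Function.uncurry fun (θ : ℝ) (g : O 4) => H θ (P 0 1 g) (P 0 2 g)) := by
    unfold H Function.uncurry
    fun_prop
  have hint : Integrable (Function.uncurry fun (θ : ℝ) (g : O 4) => H θ (P 0 1 g) (P 0 2 g))
      ((volume.restrict (Set.Ioc 0 (2 * Real.pi))).prod (haarO 4)) := by
    have h1 : IntegrableOn (Function.uncurry fun (θ : ℝ) (g : O 4) => H θ (P 0 1 g) (P 0 2 g))
        (Set.Icc 0 (2 * Real.pi) ×ˢ Set.univ) (volume.prod (haarO 4)) :=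
      hcont.continuousOn.integrableOn_compact (isCompact_Icc.prod isCompact_univ)
    have h2 := h1.mono_set (Set.prod_mono_left (t := Set.univ) (Set.Ioc_subset_Icc_self (a := (0:ℝ)) (b := 2 * Real.pi)))
    rw [IntegrableOn, ← Measure.prod_restrict, Measure.restrict_univ] at h2
    exact h2
  have h := integral_integral_swap hint
  have hpi := Real.pi_pos
  have hL : ∫ θ in Set.Ioc 0 (2 * Real.pi), ∫ g, H θ (P 0 1 g) (P 0 2 g) ∂(haarO 4) =
      2 * Real.pi * (m1 - 2 * m2) := by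
    have h3 : ∀ θ, ∫ g, H θ (P 0 1 g) (P 0 2 g) ∂(haarO 4) = m1 - 2 * m2 := HI
    simp only [h3]
    rw [setIntegral_const]
    simp
    left
    linarith
  have hR : ∫ g, (∫ θ in Set.Ioc 0 (2 * Real.pi), H θ (P 0 1 g) (P 0 2 g)) ∂(haarO 4) = 0 := by
    have h3 : ∀ g : O 4, ∫ θ in Set.Ioc 0 (2 * Real.pi), H θ (P 0 1 g) (P 0 2 g) = 0 := by
      intro g
      rw [← intervalIntegral.integral_of_le (by linarith)]
      exact H_int _ _
    simp only [h3, integral_zero]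
  have h4 : 2 * Real.pi * (m1 - 2 * m2) = 0 := hL.symm.trans (h.trans hR)
  have h5 : m1 - 2 * m2 = 0 := by
    rcases mul_eq_zero.1 h4 with h6 | h6
    · linarith
    · exact h6
  linarith

theorem I_pos {Φ : O 4 → ℝ} (hc : Continuous Φ) (h0 : ∀ g, 0 ≤ Φ g) (g : O 4) (hg : Φ g ≠ 0) :
    0 < I 4 Φ :=
  hc.integral_pos_of_hasCompactSupport_nonneg_nonzero (HasCompactSupport.of_compactSpace Φ) h0 hg

theorem m0_pos : 0 < m0 := by
  refine I_pos (by fun_prop) (fun g => abs_nonneg _) 1 ?_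
  have : P 0 1 (1 : O 4) = 1 := by
    unfold P mn
    simp
  rw [this]; norm_num

noncomputable def QM : Matrix (Fin 4) (Fin 4) ℝ :=
  !![√2 / 2, 0, √2 / 2, 0; 0, √2 / 2, 0, √2 / 2; √2 / 2, 0, -(√2 / 2), 0; 0, √2 / 2, 0, -(√2 / 2)]

theorem QM_mul : QM * QM.transpose = 1 := by
  have h : √2 * √2 = 2 := Real.mul_self_sqrt (by norm_num)
  ext i j
  rw [Matrix.mul_apply]
  fin_cases i <;> fin_cases j <;> simp [QM, Fin.sum_univ_four, Matrix.one_apply] <;> nlinarith

/-- A plane with `P 0 1 = P 2 3 = 1/2`. -/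
noncomputable def Q : O 4 := ⟨QM, (Matrix.mem_orthogonalGroup_iff (Fin 4) ℝ).2 QM_mul⟩

theorem m3_pos : 0 < m3 := by
  refine I_pos (by fun_prop) (fun g => mul_nonneg (abs_nonneg _) (sq_nonneg _)) Q ?_
  have h : √2 * √2 = 2 := Real.mul_self_sqrt (by norm_num)
  have h1 : P 0 1 Q = 1 / 2 := by
    unfold P mn
    simp [Q, QM]
    nlinarith
  have h2 : P 2 3 Q = 1 / 2 := by
    unfold P mn
    simp [Q, QM]
    nlinarith
  rw [h1, h2]
  norm_num

theorem m13_pos : 0 < m1 - m3 := by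
  have e1 : I 4 (fun g => |P 2 3 g| * P 2 3 g ^ 2) = m1 := by
    rw [swap_eq 2 3 2 3 (Equiv.swap 0 2 * Equiv.swap 1 3)]
    rfl
  have e3 : I 4 (fun g => |P 2 3 g| * P 0 1 g ^ 2) = m3 := by
    rw [swap_eq 2 3 0 1 (Equiv.swap 0 2 * Equiv.swap 1 3)]
    rfl
  have h : 0 < I 4 (fun g => (|P 0 1 g| - |P 2 3 g|) ^ 2 * (|P 0 1 g| + |P 2 3 g|)) := by
    refine I_pos (by fun_prop) (fun g => by positivity) 1 ?_
    have h1 : P 0 1 (1 : O 4) = 1 := by
      unfold P mn
      simp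
    have h2 : P 2 3 (1 : O 4) = 0 := by
      unfold P mn
      simp
    rw [h1, h2]; norm_num
  have h2 : I 4 (fun g => (|P 0 1 g| - |P 2 3 g|) ^ 2 * (|P 0 1 g| + |P 2 3 g|)) =
      2 * (m1 - m3) := by
    have h3 : (fun g : O 4 => (|P 0 1 g| - |P 2 3 g|) ^ 2 * (|P 0 1 g| + |P 2 3 g|)) =
        fun g => |P 0 1 g| * P 0 1 g ^ 2 + (|P 2 3 g| * P 2 3 g ^ 2 +
          ((-1) * (|P 0 1 g| * P 2 3 g ^ 2) + (-1) * (|P 2 3 g| * P 0 1 g ^ 2))) := by
      ext g
      have e : ∀ x : ℝ, x ^ 2 = |x| ^ 2 := fun x => (sq_abs x).symm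
      rw [e (P 0 1 g), e (P 2 3 g)]
      ring
    rw [h3, I_add (by fun_prop) (by fun_prop), I_add (by fun_prop) (by fun_prop),
      I_add (by fun_prop) (by fun_prop), I_mul, I_mul, e1, e3]
    change m1 + (m1 + (-1 * m3 + -1 * m3)) = _
    ring
  linarith

end Pool.Agent.R301.Cos
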