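import Mathlib
import Pool.Agent.R301.Cos.Rot

set_option autoImplicit false
set_option linter.unusedSimpArgs false

open MeasureTheory Module
open scoped RealInnerProductSpace ContDiff

/-!
# The cosine transform of quadratic functions on the Grassmannian of planes of `ℝ⁴`
-/

namespace Pool.Agent.R301.Cos

open Pool.Agent.H892R2.Proj

/-- The cosine transform. -/
noncomputable def cosT (n k : ℕ) (f : Submodule ℝ (E n) → ℝ) (W : Submodule ℝ (E n)) : ℝ :=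
  ∫ g, absCos (plane n k g) W * f (plane n k g) ∂(haarO n)

/-- Smooth functions on the Grassmannian. -/
def SmoothOnGr (n k : ℕ) (f : Submodule ℝ (E n) → ℝ) : Prop :=
  ContDiffOn ℝ ∞ (fun v : Fin k → E n => f (Submodule.span ℝ (Set.range v)))
    {v | LinearIndependent ℝ v}

/-! ### Minors of orthogonal matrices -/

theorem colr (R : O 4) (k l : Fin 4) : R.1 0 k * R.1 0 l + R.1 1 k * R.1 1 l + R.1 2 k * R.1 2 l +
    R.1 3 k * R.1 3 l = if k = l then 1 else 0 := by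
  rw [← col_sq R k l, Fin.sum_univ_four]

theorem rowr (R : O 4) (k l : Fin 4) : R.1 k 0 * R.1 l 0 + R.1 k 1 * R.1 l 1 + R.1 k 2 * R.1 l 2 +
    R.1 k 3 * R.1 l 3 = if k = l then 1 else 0 := by
  rw [← row_sq R k l, Fin.sum_univ_four]

theorem comp1 (R : O 4) : mn R 2 3 2 3 ^ 2 = mn R 0 1 0 1 ^ 2 := by
  have c22 := colr R 2 2
  have c33 := colr R 3 3
  have c23 := colr R 2 3
  have r00 := rowr R 0 0
  have r11 := rowr R 1 1
  have r01 := rowr R 0 1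
  rw [if_pos rfl] at c22 c33 r00 r11
  rw [if_neg (by decide)] at c23 r01
  unfold mn
  generalize R.1 0 0 = a00 at *
  generalize R.1 0 1 = a01 at *
  generalize R.1 0 2 = a02 at *
  generalize R.1 0 3 = a03 at *
  generalize R.1 1 0 = a10 at *
  generalize R.1 1 1 = a11 at *
  generalize R.1 1 2 = a12 at *
  generalize R.1 1 3 = a13 at *
  generalize R.1 2 2 = a22 at *
  generalize R.1 2 3 = a23 at *
  generalize R.1 3 2 = a32 at *
  generalize R.1 3 3 = a33 at *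
  have h1 : a22 ^ 2 + a32 ^ 2 = 1 - a02 ^ 2 - a12 ^ 2 := by linarith
  have h2 : a23 ^ 2 + a33 ^ 2 = 1 - a03 ^ 2 - a13 ^ 2 := by linarith
  have h3 : a22 * a23 + a32 * a33 = -(a02 * a03 + a12 * a13) := by linarith
  have h4 : a00 ^ 2 + a01 ^ 2 = 1 - a02 ^ 2 - a03 ^ 2 := by linarith
  have h5 : a10 ^ 2 + a11 ^ 2 = 1 - a12 ^ 2 - a13 ^ 2 := by linarith
  have h6 : a00 * a10 + a01 * a11 = -(a02 * a12 + a03 * a13) := by linarith
  calc (a22 * a33 - a23 * a32) ^ 2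
      = (a22 ^ 2 + a32 ^ 2) * (a23 ^ 2 + a33 ^ 2) - (a22 * a23 + a32 * a33) ^ 2 := by ring
    _ = (a00 ^ 2 + a01 ^ 2) * (a10 ^ 2 + a11 ^ 2) - (a00 * a10 + a01 * a11) ^ 2 := by
        rw [h1, h2, h3, h4, h5, h6]; ring
    _ = (a00 * a11 - a01 * a10) ^ 2 := by ring

theorem comp2 (R : O 4) : mn R 0 1 2 3 ^ 2 = mn R 2 3 0 1 ^ 2 := by
  have c22 := colr R 0 0
  have c33 := colr R 1 1
  have c23 := colr R 0 1
  have r00 := rowr R 0 0
  have r11 := rowr R 1 1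
  have r01 := rowr R 0 1
  rw [if_pos rfl] at c22 c33 r00 r11
  rw [if_neg (by decide)] at c23 r01
  unfold mn
  generalize R.1 0 0 = a00 at *
  generalize R.1 0 1 = a01 at *
  generalize R.1 0 2 = a02 at *
  generalize R.1 0 3 = a03 at *
  generalize R.1 1 0 = a10 at *
  generalize R.1 1 1 = a11 at *
  generalize R.1 1 2 = a12 at *
  generalize R.1 1 3 = a13 at *
  generalize R.1 2 0 = a20 at *
  generalize R.1 2 1 = a21 at *
  generalize R.1 3 0 = a30 at *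
  generalize R.1 3 1 = a31 at *
  have h1 : a20 ^ 2 + a30 ^ 2 = 1 - a00 ^ 2 - a10 ^ 2 := by linarith
  have h2 : a21 ^ 2 + a31 ^ 2 = 1 - a01 ^ 2 - a11 ^ 2 := by linarith
  have h3 : a20 * a21 + a30 * a31 = -(a00 * a01 + a10 * a11) := by linarith
  have h4 : a02 ^ 2 + a03 ^ 2 = 1 - a00 ^ 2 - a01 ^ 2 := by linarith
  have h5 : a12 ^ 2 + a13 ^ 2 = 1 - a10 ^ 2 - a11 ^ 2 := by linarith
  have h6 : a02 * a12 + a03 * a13 = -(a00 * a10 + a01 * a11) := by linarith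
  calc (a02 * a13 - a03 * a12) ^ 2
      = (a02 ^ 2 + a03 ^ 2) * (a12 ^ 2 + a13 ^ 2) - (a02 * a12 + a03 * a13) ^ 2 := by ring
    _ = (a20 ^ 2 + a30 ^ 2) * (a21 ^ 2 + a31 ^ 2) - (a20 * a21 + a30 * a31) ^ 2 := by
        rw [h1, h2, h3, h4, h5, h6]; ring
    _ = (a20 * a31 - a21 * a30) ^ 2 := by ring

theorem sum_mn (R : O 4) (a b : Fin 4) (hab : a ≠ b) :
    mn R a b 0 1 ^ 2 + mn R a b 0 2 ^ 2 + mn R a b 0 3 ^ 2 + mn R a b 1 2 ^ 2 + mn R a b 1 3 ^ 2 +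
      mn R a b 2 3 ^ 2 = 1 := by
  have h1 := rowr R a a
  have h2 := rowr R b b
  have h3 := rowr R a b
  rw [if_pos rfl] at h1 h2
  rw [if_neg hab] at h3
  unfold mn
  generalize R.1 a 0 = x0 at *
  generalize R.1 a 1 = x1 at *
  generalize R.1 a 2 = x2 at *
  generalize R.1 a 3 = x3 at *
  generalize R.1 b 0 = y0 at *
  generalize R.1 b 1 = y1 at *
  generalize R.1 b 2 = y2 at *
  generalize R.1 b 3 = y3 at *
  have h : (x0 * y1 - x1 * y0) ^ 2 + (x0 * y2 - x2 * y0) ^ 2 + (x0 * y3 - x3 * y0) ^ 2 +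
      (x1 * y2 - x2 * y1) ^ 2 + (x1 * y3 - x3 * y1) ^ 2 + (x2 * y3 - x3 * y2) ^ 2 =
      (x0 * x0 + x1 * x1 + x2 * x2 + x3 * x3) * (y0 * y0 + y1 * y1 + y2 * y2 + y3 * y3) -
        (x0 * y0 + x1 * y1 + x2 * y2 + x3 * y3) ^ 2 := by ring
  rw [h, h1, h2, h3]
  norm_num

/-- Cauchy-Binet. -/
theorem binet (R g : O 4) (a b : Fin 4) : P a b (R * g) = mn R a b 0 1 * P 0 1 g +
    mn R a b 0 2 * P 0 2 g + mn R a b 0 3 * P 0 3 g + mn R a b 1 2 * P 1 2 g +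
    mn R a b 1 3 * P 1 3 g + mn R a b 2 3 * P 2 3 g := by
  have h : ∀ i j, (R * g : O 4).1 i j = R.1 i 0 * g.1 0 j + R.1 i 1 * g.1 1 j + R.1 i 2 * g.1 2 j +
      R.1 i 3 * g.1 3 j := by
    intro i j
    change (R.1 * g.1) i j = _
    rw [Matrix.mul_apply, Fin.sum_univ_four]
  unfold P mn
  rw [h, h, h, h]
  ring

/-- The moments against the square of a minor. -/
theorem int_binet (R : O 4) (a b : Fin 4) :
    I 4 (fun g => |P 0 1 g| * P a b (R * g) ^ 2) = mn R a b 0 1 ^ 2 * m1 +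
      (mn R a b 0 2 ^ 2 + mn R a b 0 3 ^ 2 + mn R a b 1 2 ^ 2 + mn R a b 1 3 ^ 2) * m2 +
      mn R a b 2 3 ^ 2 * m3 := by
  rw [← formula]
  congr 1
  ext g
  rw [binet]
  rfl

/-! ### The function and its cosine transform -/

noncomputable def pp : ℝ := m1 - m2
noncomputable def qq : ℝ := m3 - m2
noncomputable def al : ℝ := pp / (pp ^ 2 - qq ^ 2)
noncomputable def be : ℝ := -qq / (pp ^ 2 - qq ^ 2)
noncomputable def ga : ℝ := -((al + be) * m2) / m0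

theorem pq_pos : 0 < pp ^ 2 - qq ^ 2 := by
  have h1 := m13_pos
  have h2 := m3_pos
  have h3 := m1_eq
  have h4 : pp ^ 2 - qq ^ 2 = (m1 - m3) * m3 := by
    unfold pp qq
    rw [h3]; ring
  rw [h4]
  exact mul_pos h1 h2

/-- The function on the Grassmannian. -/
noncomputable def fF (F : Submodule ℝ (E 4)) (V : Submodule ℝ (E 4)) : ℝ :=
  al * absCos V Fᗮ ^ 2 + be * absCos V F ^ 2 + ga

theorem absCos_frame {h g : O 4} {V W : Submodule ℝ (E 4)} (b : OrthonormalBasis (Fin 2) ℝ V)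
    (u : OrthonormalBasis (Fin 2) ℝ W) (i j : Fin 4) (hb0 : (b 0 : E 4) = col g 0)
    (hb1 : (b 1 : E 4) = col g 1) (hu0 : (u 0 : E 4) = col h i) (hu1 : (u 1 : E 4) = col h j) :
    absCos V W = |P i j (h⁻¹ * g)| := by
  rw [absCos_eq b u, hb0, hb1, hu0, hu1, inner_col, inner_col, inner_col, inner_col]
  unfold P mn
  congr 1
  ring

theorem absCos_plane {h g : O 4} {W : Submodule ℝ (E 4)}
    (u : OrthonormalBasis (Fin 2) ℝ W) (i j : Fin 4)
    (hu0 : (u 0 : E 4) = col h i) (hu1 : (u 1 : E 4) = col h j) :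
    absCos (plane 4 2 g) W = |P i j (h⁻¹ * g)| := by
  obtain ⟨b, hb⟩ := exists_basis (n := 4) (j := 2) (by norm_num) g
  exact absCos_frame b u i j (hb 0) (hb 1) hu0 hu1

theorem cosT_fF (F W : Submodule ℝ (E 4)) (hF : finrank ℝ F = 2) (hW : finrank ℝ W = 2) :
    cosT 4 2 (fF F) W = absCos W Fᗮ ^ 2 := by
  have hF' : finrank ℝ Fᗮ = 2 := by
    have := Submodule.finrank_add_finrank_orthogonal F
    rw [hF, finrank_euclideanSpace, Fintype.card_fin] at this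
    omega
  obtain ⟨h, w, w', hw0, hw1, -, -⟩ := exists_frame W hW
  obtain ⟨h0, u, u', hu0, hu1, hu2, hu3⟩ := exists_frame Fᗮ hF'
  have hFF : Fᗮᗮ = F := Submodule.orthogonal_orthogonal F
  set R : O 4 := h0⁻¹ * h with hR
  have e1 : ∀ g : O 4, absCos (plane 4 2 g) W = |P 0 1 (h⁻¹ * g)| := fun g =>
    absCos_plane w 0 1 hw0 hw1
  have e2 : ∀ g : O 4, absCos (plane 4 2 g) Fᗮ = |P 0 1 (h0⁻¹ * g)| := fun g =>
    absCos_plane u 0 1 hu0 hu1
  have e3 : ∀ g : O 4, absCos (plane 4 2 g) F = |P 2 3 (h0⁻¹ * g)| := by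
    intro g
    rw [← hFF]
    exact absCos_plane u' 2 3 hu2 hu3
  have e4 : absCos W Fᗮ = |P 0 1 R| := absCos_frame w u 0 1 hw0 hw1 hu0 hu1
  have h1 : cosT 4 2 (fF F) W = I 4 (fun g => (fun g => |P 0 1 (h⁻¹ * g)| *
      (al * |P 0 1 (h0⁻¹ * g)| ^ 2 + be * |P 2 3 (h0⁻¹ * g)| ^ 2 + ga)) g) := by
    unfold cosT fF I
    congr 1
    ext g
    rw [e1, e2, e3]
  rw [h1, ← left_inv (fun g => |P 0 1 (h⁻¹ * g)| *
      (al * |P 0 1 (h0⁻¹ * g)| ^ 2 + be * |P 2 3 (h0⁻¹ * g)| ^ 2 + ga)) h]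
  have h2 : (fun g : O 4 => |P 0 1 (h⁻¹ * (h * g))| *
      (al * |P 0 1 (h0⁻¹ * (h * g))| ^ 2 + be * |P 2 3 (h0⁻¹ * (h * g))| ^ 2 + ga)) =
      fun g => al * (|P 0 1 g| * P 0 1 (R * g) ^ 2) + (be * (|P 0 1 g| * P 2 3 (R * g) ^ 2) +
        ga * |P 0 1 g|) := by
    ext g
    rw [inv_mul_cancel_left, ← mul_assoc, ← hR, sq_abs, sq_abs]
    ring
  have hc : Continuous (fun g : O 4 => R * g) := continuous_const.mul continuous_id
  have hc1 : Continuous (fun g : O 4 => P 0 1 (R * g)) := (P_cont 0 1).comp hc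
  have hc2 : Continuous (fun g : O 4 => P 2 3 (R * g)) := (P_cont 2 3).comp hc
  rw [h2, I_add (by fun_prop) (by fun_prop), I_add (by fun_prop) (by fun_prop), I_mul, I_mul, I_mul,
    int_binet, int_binet, e4, sq_abs]
  have s1 := sum_mn R 0 1 (by decide)
  have s2 := sum_mn R 2 3 (by decide)
  rw [comp2 R] at s1 ⊢
  rw [comp1 R] at s2 ⊢
  have e5 : P 0 1 R = mn R 0 1 0 1 := rfl
  rw [e5]
  have e6 : I 4 (fun g => |P 0 1 g|) = m0 := rfl
  rw [e6]
  set s := mn R 0 1 0 1 ^ 2 with hs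
  set t := mn R 2 3 0 1 ^ 2 with ht
  have t1 : mn R 0 1 0 2 ^ 2 + mn R 0 1 0 3 ^ 2 + mn R 0 1 1 2 ^ 2 + mn R 0 1 1 3 ^ 2 = 1 - s - t := by
    linarith
  have t2 : mn R 2 3 0 2 ^ 2 + mn R 2 3 0 3 ^ 2 + mn R 2 3 1 2 ^ 2 + mn R 2 3 1 3 ^ 2 = 1 - s - t := by
    linarith
  rw [t1, t2]
  have hm0 := m0_pos.ne'
  have hpq := pq_pos.ne'
  have g1 : ga * m0 = -((al + be) * m2) := by
    unfold ga
    field_simp
  have g2 : al * pp + be * qq = 1 := by
    unfold al be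
    field_simp
    ring
  have g3 : al * qq + be * pp = 0 := by
    unfold al be
    field_simp
    ring
  have hm1 : m1 = pp + m2 := by unfold pp; ring
  have hm3 : m3 = qq + m2 := by unfold qq; ring
  rw [g1, hm1, hm3]
  linear_combination s * g2 + t * g3

end Pool.Agent.R301.Cos
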